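import Pool.Agent.Helper34.PU.Goals

/-!
Packet UNI: pseudo-randomness for sign functions, by a union bound.
-/

set_option autoImplicit false

open Finset Function
open scoped Classical

namespace Pool.Agent.Helper73.PU

open Pool.Agent.Helper34.PU

/-- the index set of the products -/
noncomputable def PhiS (β : ℕ) {T : ℕ} (J0 K : Finset (Fin T)) : Finset (Finset (Fin T)) :=
  K.powerset.filter (fun J => J0 ⊆ J ∧ J.card ≤ β)

/-- parameters of the test functions -/
abbrev Par (β : ℕ) {T : ℕ} (D : ℕ) (J0 K : Finset (Fin T)) : Type :=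
  Pt T D × ((J : {J // J ∈ PhiS β J0 K}) → ({t // t ∈ J.1 \ J0} → Fin D) → Bool)

/-- the test functions -/
noncomputable def Zf {β T D : ℕ} {J0 K : Finset (Fin T)} (P : Par β D J0 K) (ω : Pt T D) : ℝ :=
  if ω ∈ blk J0 P.1 then
    ∏ J ∈ (PhiS β J0 K).attach, (if P.2 J (fun t => ω t.1) = true then 1 else -1) else 0

theorem card_blk {T D : ℕ} (J0 : Finset (Fin T)) (a : Pt T D) :
    (blk J0 a).card = D ^ (T - J0.card) := by
  have h : blk J0 a = Fintype.piFinset (fun t => if t ∈ J0 then {a t} else univ) := by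
    ext φ
    simp only [blk, mem_filter, mem_univ, true_and, Fintype.mem_piFinset]
    constructor
    · intro h t
      by_cases ht : t ∈ J0
      · rw [if_pos ht, mem_singleton]; exact h t ht
      · rw [if_neg ht]; exact mem_univ _
    · intro h t ht
      have := h t
      rwa [if_pos ht, mem_singleton] at this
  rw [h, Fintype.card_piFinset]
  have h2 : ∀ t : Fin T, (if t ∈ J0 then {a t} else univ : Finset (Fin D)).card =
      if t ∈ J0 then 1 else D := by
    intro t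
    split_ifs
    · exact card_singleton _
    · simp
  simp only [h2]
  rw [prod_ite, prod_const_one, one_mul, prod_const]
  congr 1
  have h3 : (univ.filter (fun t => t ∉ J0) : Finset (Fin T)) = J0ᶜ := by
    ext t; simp
  rw [h3, card_compl, Fintype.card_fin]

theorem Zf_prod {β T D : ℕ} {J0 K : Finset (Fin T)} (P : Par β D J0 K) (ω : Pt T D) :
    |∏ J ∈ (PhiS β J0 K).attach, (if P.2 J (fun t => ω t.1) = true then (1 : ℝ) else -1)| = 1 := by
  rw [abs_prod]
  apply prod_eq_one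
  intro J _
  split_ifs <;> simp

theorem Zf_abs {β T D : ℕ} {J0 K : Finset (Fin T)} (P : Par β D J0 K) (ω : Pt T D) :
    |Zf P ω| ≤ 1 := by
  unfold Zf
  split_ifs
  · exact (Zf_prod P ω).le
  · simp

theorem avg_univ_ite {T D : ℕ} (hD : 0 < D) (J0 : Finset (Fin T)) (a : Pt T D) (f : Pt T D → ℝ) :
    avg univ (fun ω => if ω ∈ blk J0 a then f ω else 0) =
      1 / (D : ℝ) ^ J0.card * avg (blk J0 a) f := by
  have hD0 : (0 : ℝ) < D := by exact_mod_cast hD
  unfold avg
  rw [← sum_filter, filter_mem_eq_inter, univ_inter, card_blk, card_univ]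
  have hc : Fintype.card (Pt T D) = D ^ T := by simp
  rw [hc]
  push_cast
  have hJ : J0.card ≤ T := by simpa using card_le_univ J0
  have h1 : (D : ℝ) ^ T = (D : ℝ) ^ J0.card * (D : ℝ) ^ (T - J0.card) := by
    rw [← pow_add]; congr 1; omega
  rw [h1]
  field_simp

theorem Zf_sq {β T D : ℕ} (hD : 0 < D) {J0 K : Finset (Fin T)} (P : Par β D J0 K) :
    avg univ (fun ω => Zf P ω ^ 2) = 1 / (D : ℝ) ^ J0.card := by
  have h : (fun ω => Zf P ω ^ 2) = fun ω => if ω ∈ blk J0 P.1 then (1 : ℝ) else 0 := by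
    funext ω
    unfold Zf
    split_ifs
    · rw [← sq_abs, Zf_prod, one_pow]
    · simp
  rw [h, avg_univ_ite hD]
  have h2 : avg (blk J0 P.1) (fun _ => (1 : ℝ)) = 1 := by
    unfold avg
    rw [sum_const, nsmul_eq_mul, mul_one]
    apply div_self
    rw [card_blk]
    have : 0 < D ^ (T - J0.card) := by positivity
    exact_mod_cast this.ne'
  rw [h2, mul_one]

/-- the parameter of a family of sign functions -/
theorem exists_par {β T D : ℕ} {J0 K : Finset (Fin T)} (a : Pt T D)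
    (g : Finset (Fin T) → Pt T D → ℝ) (hg : ∀ J φ, g J φ = 1 ∨ g J φ = -1)
    (hdep : ∀ J, Dep J (g J)) : ∃ P : Par β D J0 K, P.1 = a ∧ ∀ ω, Zf P ω =
      if ω ∈ blk J0 a then ∏ J ∈ PhiS β J0 K, g J ω else 0 := by
  refine ⟨(a, fun J z => decide (g J.1 (fun t => if h : t ∈ J.1 \ J0 then z ⟨t, h⟩ else a t) = 1)),
    rfl, fun ω => ?_⟩
  unfold Zf
  by_cases hω : ω ∈ blk J0 a
  · rw [if_pos hω, if_pos hω]
    rw [← prod_attach (PhiS β J0 K) (fun J => g J ω)]
    refine prod_congr rfl fun J _ => ?_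
    have h1 : g J.1 ω = g J.1 (fun t => if h : t ∈ J.1 \ J0 then ω t else a t) := by
      apply hdep
      intro t ht
      by_cases h : t ∈ J.1 \ J0
      · rw [dif_pos h]
      · rw [dif_neg h]
        have h2 : t ∈ J0 := by
          by_contra h3
          exact h (mem_sdiff.2 ⟨ht, h3⟩)
        simp only [blk, mem_filter, mem_univ, true_and] at hω
        exact hω t h2
    simp only [decide_eq_true_eq]
    rcases hg J.1 ω with h3 | h3
    · rw [if_pos (by rw [← h1]; exact h3), h3]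
    · rw [if_neg (by rw [← h1, h3]; norm_num), h3]
  · rw [if_neg hω, if_neg hω]

theorem card_par {β k T D : ℕ} (hD : 1 ≤ D) {J0 K : Finset (Fin T)} (hK : K.card ≤ k) :
    (Fintype.card (Par β D J0 K) : ℝ) ≤
      (D : ℝ) ^ T * Real.exp ((D : ℝ) ^ (β - J0.card) * (2 ^ k * Real.log 2)) := by
  have hD0 : (1 : ℝ) ≤ D := by exact_mod_cast hD
  have hc : Fintype.card (Pt T D) = D ^ T := by simp
  rw [Fintype.card_prod, hc, Fintype.card_pi]
  push_cast
  apply mul_le_mul_of_nonneg_left _ (by positivity)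
  have h1 : ∀ J : {J // J ∈ PhiS β J0 K},
      ((Fintype.card (({t // t ∈ J.1 \ J0} → Fin D) → Bool) : ℕ) : ℝ) ≤
        Real.exp ((D : ℝ) ^ (β - J0.card) * Real.log 2) := by
    intro J
    have hJ := J.2
    simp only [PhiS, mem_filter, mem_powerset] at hJ
    have h2 : Fintype.card (({t // t ∈ J.1 \ J0} → Fin D) → Bool) = 2 ^ (D ^ (J.1 \ J0).card) := by
      rw [Fintype.card_fun, Fintype.card_bool, Fintype.card_fun, Fintype.card_fin,
        Fintype.card_coe]
    rw [h2]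
    push_cast
    have h3 : (2 : ℝ) ^ (D ^ (J.1 \ J0).card) = Real.exp ((D : ℝ) ^ (J.1 \ J0).card * Real.log 2) := by
      rw [← Real.rpow_natCast, Real.rpow_def_of_pos (by norm_num)]
      push_cast
      rw [mul_comm]
    rw [h3, Real.exp_le_exp]
    apply mul_le_mul_of_nonneg_right _ (Real.log_nonneg (by norm_num))
    apply pow_le_pow_right₀ hD0
    rw [card_sdiff_of_subset hJ.2.1]
    exact Nat.sub_le_sub_right hJ.2.2 _
  calc ∏ J : {J // J ∈ PhiS β J0 K},
        ((Fintype.card (({t // t ∈ J.1 \ J0} → Fin D) → Bool) : ℕ) : ℝ)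
      ≤ ∏ _J : {J // J ∈ PhiS β J0 K}, Real.exp ((D : ℝ) ^ (β - J0.card) * Real.log 2) :=
        prod_le_prod (fun _ _ => by positivity) (fun J _ => h1 J)
    _ = Real.exp ((D : ℝ) ^ (β - J0.card) * Real.log 2) ^ (PhiS β J0 K).card := by
        rw [prod_const, card_univ, Fintype.card_coe]
    _ ≤ _ := by
        rw [← Real.exp_nat_mul, Real.exp_le_exp]
        have h4 : (PhiS β J0 K).card ≤ 2 ^ k := by
          calc (PhiS β J0 K).card ≤ K.powerset.card := card_filter_le _ _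
            _ = 2 ^ K.card := card_powerset _
            _ ≤ 2 ^ k := Nat.pow_le_pow_right (by norm_num) hK
        have h5 : ((PhiS β J0 K).card : ℝ) ≤ 2 ^ k := by exact_mod_cast h4
        have h6 : 0 ≤ (D : ℝ) ^ (β - J0.card) * Real.log 2 :=
          mul_nonneg (by positivity) (Real.log_nonneg (by norm_num))
        calc ((PhiS β J0 K).card : ℝ) * ((D : ℝ) ^ (β - J0.card) * Real.log 2)
            ≤ 2 ^ k * ((D : ℝ) ^ (β - J0.card) * Real.log 2) := mul_le_mul_of_nonneg_right h5 h6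
          _ = _ := by ring

theorem ev (k T : ℕ) (t : ℝ) (ht : 0 < t) : ∃ D0 : ℕ, ∀ D : ℕ, D0 ≤ D → 1 ≤ D ∧
    2 ^ k * Real.log 2 ≤ t ^ 2 * D / 4 ∧
    4 ^ T * (2 * (D : ℝ) ^ T * Real.exp (2 ^ k * Real.log 2 - t ^ 2 * D / 4)) < 1 := by
  have hc : 0 < t ^ 2 / 4 := by positivity
  have h1 : Filter.Tendsto (fun D : ℕ => (D : ℝ) ^ (T : ℝ) * Real.exp (-(t ^ 2 / 4) * D))
      Filter.atTop (nhds 0) :=
    (tendsto_rpow_mul_exp_neg_mul_atTop_nhds_zero T (t ^ 2 / 4) hc).comp
      tendsto_natCast_atTop_atTop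
  have h2 : Filter.Tendsto (fun D : ℕ => 4 ^ T * 2 * Real.exp (2 ^ k * Real.log 2) *
      ((D : ℝ) ^ (T : ℝ) * Real.exp (-(t ^ 2 / 4) * D))) Filter.atTop (nhds 0) := by
    have := h1.const_mul (4 ^ T * 2 * Real.exp (2 ^ k * Real.log 2))
    rwa [mul_zero] at this
  have h3 := h2.eventually (gt_mem_nhds one_pos)
  have h4 : ∀ᶠ D : ℕ in Filter.atTop, 2 ^ k * Real.log 2 ≤ t ^ 2 / 4 * D :=
    (tendsto_natCast_atTop_atTop.const_mul_atTop hc).eventually_ge_atTop _
  obtain ⟨D0, hD0⟩ := Filter.eventually_atTop.1 ((h3.and h4).and (Filter.eventually_ge_atTop 1))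
  refine ⟨D0, fun D hD => ?_⟩
  obtain ⟨⟨a1, a2⟩, a3⟩ := hD0 D hD
  refine ⟨a3, by linarith, ?_⟩
  refine lt_of_le_of_lt (le_of_eq ?_) a1
  rw [Real.rpow_natCast, sub_eq_add_neg, Real.exp_add]
  have : -(t ^ 2 * (D : ℝ) / 4) = -(t ^ 2 / 4) * D := by ring
  rw [this]
  ring

theorem uni (h : BernStmt) : UniStmt := by
  intro β k T t ht ht1
  obtain ⟨D0, hD0⟩ := ev k T t ht
  refine ⟨D0, fun D hD => ?_⟩
  obtain ⟨hD1, hev1, hev2⟩ := hD0 D hD
  have hDpos : 0 < D := by omega
  have hD0' : (0 : ℝ) < D := by exact_mod_cast hDpos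
  have hD1' : (1 : ℝ) ≤ D := by exact_mod_cast hD1
  have hne : Nonempty (Pt T D) := ⟨fun _ => ⟨0, hDpos⟩⟩
  set N := D ^ (β + 1) with hN
  have hcard : (Fintype.card (Pt T D) : ℝ) = (D : ℝ) ^ T := by simp
  -- bad points
  set Bad : (J0 K : Finset (Fin T)) → Par β D J0 K → Finset (Fin N → Pt T D) := fun J0 K P =>
    univ.filter (fun x : Fin N → Pt T D =>
      t * (1 / (D : ℝ) ^ J0.card) * N ≤ |∑ i, Zf P (x i) - N * avg univ (Zf P)|) with hBad
  have hbadcard : ∀ (J0 K : Finset (Fin T)), J0.card ≤ β → K.card ≤ k →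
      ∑ P : Par β D J0 K, ((Bad J0 K P).card : ℝ) ≤
        (2 * (D : ℝ) ^ T * Real.exp (2 ^ k * Real.log 2 - t ^ 2 * D / 4)) * ((D : ℝ) ^ T) ^ N := by
    intro J0 K hJ hK
    have h1 : ∀ P : Par β D J0 K, ((Bad J0 K P).card : ℝ) ≤
        2 * Real.exp (-(t ^ 2 * D / 4) * (D : ℝ) ^ (β - J0.card)) * ((D : ℝ) ^ T) ^ N := by
      intro P
      have h2 := h (Pt T D) N (Zf P) (1 / (D : ℝ) ^ J0.card) t (Zf_abs P) (Zf_sq hDpos P).le
        (by positivity) ht ht1
      rw [hcard] at h2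
      refine h2.trans (le_of_eq ?_)
      have h3 : -(t ^ 2 * (1 / (D : ℝ) ^ J0.card) * (N : ℝ) / 4) =
          -(t ^ 2 * D / 4) * (D : ℝ) ^ (β - J0.card) := by
        rw [hN]
        push_cast
        have h4 : (D : ℝ) ^ (β + 1) = (D : ℝ) ^ J0.card * ((D : ℝ) ^ (β - J0.card) * D) := by
          rw [← pow_succ, ← pow_add]; congr 1; omega
        rw [h4]
        field_simp
      rw [h3]
    have hX : (1 : ℝ) ≤ (D : ℝ) ^ (β - J0.card) := one_le_pow₀ hD1'
    have hc := card_par (β := β) (k := k) hD1 (J0 := J0) hK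
    calc ∑ P : Par β D J0 K, ((Bad J0 K P).card : ℝ)
        ≤ ∑ _P : Par β D J0 K,
          2 * Real.exp (-(t ^ 2 * D / 4) * (D : ℝ) ^ (β - J0.card)) * ((D : ℝ) ^ T) ^ N :=
          sum_le_sum fun P _ => h1 P
      _ = (Fintype.card (Par β D J0 K) : ℝ) *
          (2 * Real.exp (-(t ^ 2 * D / 4) * (D : ℝ) ^ (β - J0.card)) * ((D : ℝ) ^ T) ^ N) := by
          rw [sum_const, card_univ, nsmul_eq_mul]
      _ ≤ ((D : ℝ) ^ T * Real.exp ((D : ℝ) ^ (β - J0.card) * (2 ^ k * Real.log 2))) *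
          (2 * Real.exp (-(t ^ 2 * D / 4) * (D : ℝ) ^ (β - J0.card)) * ((D : ℝ) ^ T) ^ N) :=
          mul_le_mul_of_nonneg_right hc (by positivity)
      _ = (2 * (D : ℝ) ^ T * Real.exp ((D : ℝ) ^ (β - J0.card) *
          (2 ^ k * Real.log 2 - t ^ 2 * D / 4))) * ((D : ℝ) ^ T) ^ N := by
          have e : (D : ℝ) ^ (β - J0.card) * (2 ^ k * Real.log 2 - t ^ 2 * D / 4) =
            (D : ℝ) ^ (β - J0.card) * (2 ^ k * Real.log 2) +
              -(t ^ 2 * D / 4) * (D : ℝ) ^ (β - J0.card) := by ring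
          rw [e, Real.exp_add]
          ring
      _ ≤ _ := by
          apply mul_le_mul_of_nonneg_right _ (by positivity)
          apply mul_le_mul_of_nonneg_left _ (by positivity)
          rw [Real.exp_le_exp]
          nlinarith
  -- a good point
  obtain ⟨x, hx⟩ : ∃ x : Fin N → Pt T D, ∀ (J0 K : Finset (Fin T)), J0.card ≤ β → K.card ≤ k →
      ∀ P : Par β D J0 K, x ∉ Bad J0 K P := by
    by_contra hcon
    push Not at hcon
    have hsub : (univ : Finset (Fin N → Pt T D)) ⊆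
        ((univ : Finset (Finset (Fin T) × Finset (Fin T))).filter
          (fun q => q.1.card ≤ β ∧ q.2.card ≤ k)).biUnion
          (fun q => (univ : Finset (Par β D q.1 q.2)).biUnion (fun P => Bad q.1 q.2 P)) := by
      intro x _
      obtain ⟨J0, K, hJ, hK, P, hP⟩ := hcon x
      rw [mem_biUnion]
      refine ⟨(J0, K), mem_filter.2 ⟨mem_univ _, hJ, hK⟩, ?_⟩
      rw [mem_biUnion]
      exact ⟨P, mem_univ _, hP⟩
    have h1 : ((univ : Finset (Fin N → Pt T D)).card : ℝ) ≤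
        ∑ q ∈ (univ : Finset (Finset (Fin T) × Finset (Fin T))).filter
          (fun q => q.1.card ≤ β ∧ q.2.card ≤ k), ∑ P : Par β D q.1 q.2, ((Bad q.1 q.2 P).card : ℝ) := by
      have h2 := (card_le_card hsub).trans (card_biUnion_le.trans
        (sum_le_sum fun q _ => card_biUnion_le))
      exact_mod_cast h2
    have h2 : ((univ : Finset (Fin N → Pt T D)).card : ℝ) = ((D : ℝ) ^ T) ^ N := by
      simp
    rw [h2] at h1
    have h3 : ∑ q ∈ (univ : Finset (Finset (Fin T) × Finset (Fin T))).filter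
          (fun q => q.1.card ≤ β ∧ q.2.card ≤ k), ∑ P : Par β D q.1 q.2, ((Bad q.1 q.2 P).card : ℝ) ≤
        4 ^ T * (2 * (D : ℝ) ^ T * Real.exp (2 ^ k * Real.log 2 - t ^ 2 * D / 4)) *
          ((D : ℝ) ^ T) ^ N := by
      refine (sum_le_sum fun q hq => hbadcard q.1 q.2 (mem_filter.1 hq).2.1
        (mem_filter.1 hq).2.2).trans ?_
      rw [sum_const, nsmul_eq_mul]
      have h4 : (((univ : Finset (Finset (Fin T) × Finset (Fin T))).filter
          (fun q => q.1.card ≤ β ∧ q.2.card ≤ k)).card : ℝ) ≤ 4 ^ T := by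
        have h5 : ((univ : Finset (Finset (Fin T) × Finset (Fin T))).filter
            (fun q => q.1.card ≤ β ∧ q.2.card ≤ k)).card ≤ 4 ^ T := by
          refine (card_filter_le _ _).trans (le_of_eq ?_)
          rw [card_univ, Fintype.card_prod, Fintype.card_finset, Fintype.card_fin, ← mul_pow]
          norm_num
        exact_mod_cast h5
      have h5 : 0 ≤ (2 * (D : ℝ) ^ T * Real.exp (2 ^ k * Real.log 2 - t ^ 2 * D / 4)) *
          ((D : ℝ) ^ T) ^ N := by positivity
      calc _ ≤ 4 ^ T * ((2 * (D : ℝ) ^ T * Real.exp (2 ^ k * Real.log 2 - t ^ 2 * D / 4)) *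
          ((D : ℝ) ^ T) ^ N) := mul_le_mul_of_nonneg_right h4 h5
        _ = _ := by ring
    have h4 : 0 < ((D : ℝ) ^ T) ^ N := by positivity
    have h5 := h1.trans h3
    nlinarith
  refine ⟨x, fun J0 K a g hJK hJ hK hg hdep => ?_⟩
  obtain ⟨P, hPa, hP⟩ := exists_par (β := β) (J0 := J0) (K := K) a g hg hdep
  have hxP := hx J0 K hJ hK P
  simp only [hBad, mem_filter, mem_univ, true_and, not_le] at hxP
  have e1 : ∑ i, Zf P (x i) = ∑ i ∈ cell x J0 a, ∏ J ∈ K.powerset.filter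
      (fun J => J0 ⊆ J ∧ J.card ≤ β), g J (x i) := by
    simp only [hP]
    rw [← sum_filter]
    apply sum_congr
    · ext i
      simp [cell, blk]
    · intro i _
      rfl
  have e2 : (N : ℝ) * avg univ (Zf P) = (D : ℝ) ^ (β + 1 - J0.card) * avg (blk J0 a)
      (fun φ => ∏ J ∈ K.powerset.filter (fun J => J0 ⊆ J ∧ J.card ≤ β), g J φ) := by
    have h1 : Zf P = fun ω => if ω ∈ blk J0 a then ∏ J ∈ PhiS β J0 K, g J ω else 0 := funext hP
    rw [h1, avg_univ_ite hDpos, hN]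
    push_cast
    have h4 : (D : ℝ) ^ (β + 1) = (D : ℝ) ^ J0.card * (D : ℝ) ^ (β + 1 - J0.card) := by
      rw [← pow_add]; congr 1; omega
    rw [h4]
    have : (D : ℝ) ^ J0.card ≠ 0 := by positivity
    unfold PhiS
    field_simp
  have e3 : t * (1 / (D : ℝ) ^ J0.card) * N = t * (D : ℝ) ^ (β + 1 - J0.card) := by
    rw [hN]
    push_cast
    have h4 : (D : ℝ) ^ (β + 1) = (D : ℝ) ^ J0.card * (D : ℝ) ^ (β + 1 - J0.card) := by
      rw [← pow_add]; congr 1; omega
    rw [h4]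
    field_simp
  rw [e1, e2, e3] at hxP
  exact hxP.le

end Pool.Agent.Helper73.PU
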